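import Mathlib

/-!
# MP_c4a55f_al: infinite products of Raikov complete minimal groups (Uspenskii's question)

We prove that an arbitrary product of Raikov complete minimal groups `G i` is minimal as soon as all
but finitely many factors are conjugation rigid.  This class contains the complete groups with a
compact central subgroup `K` such that `G i / K` is minimal and the centre of `G i` is separated,
modulo `K`, by a continuous homomorphism of `G i / K` to a compact group, and the generalised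
Heisenberg groups of separated biadditive maps with values in a compact group.
-/

open Filter Topology Set

namespace Pool.Agent.Results.MP_c4a55f_al.CentreDetected

universe u v w

/-- `(G, τ)` is a minimal (Hausdorff) topological group: `τ` is a Hausdorff group topology and there
is no strictly coarser one. (`τ ≤ σ` says that `σ` is coarser than `τ`.) -/
structure IsMinimalGroup (G : Type u) [Group G] (τ : TopologicalSpace G) : Prop where
  tg : @IsTopologicalGroup G τ _
  t2 : @T2Space G τ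
  min : ∀ σ : TopologicalSpace G, @IsTopologicalGroup G σ _ → @T2Space G σ → τ ≤ σ → σ = τ

/-- Raikov completeness: every filter that is Cauchy for the two-sided uniformity converges. -/
def RaikovComplete (G : Type u) [Group G] [TopologicalSpace G] : Prop :=
  ∀ F : Filter G, F.NeBot →
    (∀ U ∈ 𝓝 (1 : G), ∃ A ∈ F, ∀ x ∈ A, ∀ y ∈ A, x⁻¹ * y ∈ U ∧ y * x⁻¹ ∈ U) →
    ∃ g : G, F ≤ 𝓝 g

/-- `G` is conjugation rigid: if `ν` is a group topology on `G`, coarser than the given one, in which
the closure of `1` is the centre, and for which the conjugation action of `(G, ν)` on `G` is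
continuous, then every ultrafilter which tends to `1` in `ν` converges in `G`.
(In other words: the centre is compact, and a Hausdorff group topology on `G / Z(G)`, coarser than
the quotient topology, for which the conjugation action on `G` is continuous, is equal to it.) -/
def ConjRigid (G : Type u) [Group G] [τ : TopologicalSpace G] : Prop :=
  ∀ ν : TopologicalSpace G, @IsTopologicalGroup G ν _ → τ ≤ ν →
    (∀ g : G, g ∈ @closure G ν {1} ↔ g ∈ Subgroup.center G) →
    (∀ y : G, Tendsto (fun q : G × G => q.1 * q.2 * q.1⁻¹)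
      ((@nhds G ν 1) ×ˢ (@nhds G τ y)) (@nhds G τ y)) →
    ∀ U : Ultrafilter G, (U : Filter G) ≤ @nhds G ν 1 → ∃ z : G, (U : Filter G) ≤ @nhds G τ z

/-- The centre of `G` is detected by a compact group modulo a compact central subgroup `K` with
minimal quotient. -/
def CentreDetected (G : Type u) [Group G] [TopologicalSpace G] : Prop :=
  ∃ (K : Subgroup G) (_ : K.Normal), K ≤ Subgroup.center G ∧ IsCompact (K : Set G) ∧
    IsMinimalGroup (G ⧸ K) inferInstance ∧
    ∃ (C : Type u) (_ : Group C) (_ : TopologicalSpace C) (_ : IsTopologicalGroup C)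
      (_ : CompactSpace C) (_ : T2Space C) (f : (G ⧸ K) →* C), Continuous f ∧
      ∀ x ∈ Subgroup.center G, f (x : G ⧸ K) = 1 → x ∈ K

/-- An ultrafilter on `G` which is Cauchy modulo a compact central subgroup is Cauchy. -/
theorem cauchy_of_cauchy_mod {G : Type u} [Group G] [TopologicalSpace G] [IsTopologicalGroup G]
    (K : Subgroup G) (hKc : K ≤ Subgroup.center G) (hK : IsCompact (K : Set G))
    (V : Ultrafilter G)
    (h : ∀ U ∈ 𝓝 (1 : G), ∃ A ∈ V, ∀ x ∈ A, ∀ y ∈ A,
      (∃ k ∈ K, x⁻¹ * y * k ∈ U) ∧ (∃ k ∈ K, y * x⁻¹ * k ∈ U)) :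
    ∀ U ∈ 𝓝 (1 : G), ∃ A ∈ V, ∀ x ∈ A, ∀ y ∈ A, x⁻¹ * y ∈ U ∧ y * x⁻¹ ∈ U := by
  intro U hU
  -- choose a small neighbourhood
  have c1 : Tendsto (fun p : (G × G) × (G × G) => (p.1.1 * p.1.2)⁻¹ * (p.2.1 * p.2.2))
      (𝓝 ((1, 1), (1, 1))) (𝓝 1) := by
    have : Continuous (fun p : (G × G) × (G × G) => (p.1.1 * p.1.2)⁻¹ * (p.2.1 * p.2.2)) := by
      fun_prop
    simpa using this.tendsto ((1, 1), (1, 1))
  have c2 : Tendsto (fun p : (G × G) × (G × G) => (p.2.1 * p.2.2) * (p.1.1 * p.1.2)⁻¹)
      (𝓝 ((1, 1), (1, 1))) (𝓝 1) := by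
    have : Continuous (fun p : (G × G) × (G × G) => (p.2.1 * p.2.2) * (p.1.1 * p.1.2)⁻¹) := by
      fun_prop
    simpa using this.tendsto ((1, 1), (1, 1))
  have hS := inter_mem (mem_map.1 (c1 hU)) (mem_map.1 (c2 hU))
  rw [nhds_prod_eq, nhds_prod_eq] at hS
  obtain ⟨P, hP, Q, hQ, hPQ⟩ := Filter.mem_prod_iff.1 hS
  obtain ⟨P1, hP1, P2, hP2, hPP⟩ := Filter.mem_prod_iff.1 hP
  obtain ⟨Q1, hQ1, Q2, hQ2, hQQ⟩ := Filter.mem_prod_iff.1 hQ
  set W : Set G := P1 ∩ P2 ∩ (Q1 ∩ Q2) with hWdef
  have hW : W ∈ 𝓝 (1 : G) := inter_mem (inter_mem hP1 hP2) (inter_mem hQ1 hQ2)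
  have hWU : ∀ a ∈ W, ∀ b ∈ W, ∀ c ∈ W, ∀ d ∈ W,
      (a * b)⁻¹ * (c * d) ∈ U ∧ (c * d) * (a * b)⁻¹ ∈ U := by
    intro a ha b hb c hc d hd
    have h1 : (a, b) ∈ P := hPP ⟨ha.1.1, hb.1.2⟩
    have h2 : (c, d) ∈ Q := hQQ ⟨hc.2.1, hd.2.2⟩
    exact hPQ (show ((a, b), (c, d)) ∈ P ×ˢ Q from ⟨h1, h2⟩)
  -- finitely many translates of `W` cover `K`
  obtain ⟨F, hFK, hcov⟩ : ∃ F : Finset G, (∀ x ∈ F, x ∈ (K : Set G)) ∧
      (K : Set G) ⊆ ⋃ x ∈ F, (fun w => x * w) '' W := by
    refine hK.elim_nhds_subcover (fun x => (fun w => x * w) '' W) ?_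
    intro x _
    have : (Homeomorph.mulLeft x) '' W ∈ 𝓝 ((Homeomorph.mulLeft x) 1) :=
      (Homeomorph.mulLeft x).isOpenMap.image_mem_nhds hW
    simpa using this
  have hcen : ∀ k ∈ K, ∀ g : G, g * k = k * g := by
    intro k hk g
    exact (Subgroup.mem_center_iff.1 (hKc hk)) g
  obtain ⟨A, hA, hAW⟩ := h W hW
  obtain ⟨a₀, ha₀⟩ := V.nonempty_of_mem hA
  have hL : A ⊆ ⋃ x ∈ (F : Set G), {y | ∃ a ∈ W, ∃ b ∈ W, y = a₀ * x * (a * b)} := by
    intro y hy
    obtain ⟨⟨k, hk, hk2⟩, -⟩ := hAW a₀ ha₀ y hy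
    have hkinv : k⁻¹ ∈ (K : Set G) := K.inv_mem hk
    obtain ⟨x, hx, w, hw, hxw⟩ := by
      simpa only [mem_iUnion, mem_image, exists_prop] using hcov hkinv
    simp only [mem_iUnion, mem_ofPred_eq, exists_prop]
    refine ⟨x, hx, a₀⁻¹ * y * k, hk2, w, hw, ?_⟩
    have hxK : x ∈ K := hFK x hx
    have e1 : a₀⁻¹ * y * k * w = a₀⁻¹ * y * k * (x⁻¹ * k⁻¹) := by
      rw [← hxw]; group
    have e2 : x * (a₀⁻¹ * y * k * w) = a₀⁻¹ * y := by
      rw [e1, ← hcen x hxK, mul_assoc (a₀⁻¹ * y * k), hcen x hxK (x⁻¹ * k⁻¹)]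
      group
    rw [mul_assoc a₀ x, e2]; group
  have hR : A ⊆ ⋃ x ∈ (F : Set G), {y | ∃ a ∈ W, ∃ b ∈ W, y = x * (a * b) * a₀} := by
    intro y hy
    obtain ⟨-, ⟨k, hk, hk2⟩⟩ := hAW a₀ ha₀ y hy
    have hkinv : k⁻¹ ∈ (K : Set G) := K.inv_mem hk
    obtain ⟨x, hx, w, hw, hxw⟩ := by
      simpa only [mem_iUnion, mem_image, exists_prop] using hcov hkinv
    simp only [mem_iUnion, mem_ofPred_eq, exists_prop]
    refine ⟨x, hx, y * a₀⁻¹ * k, hk2, w, hw, ?_⟩
    have hxK : x ∈ K := hFK x hx
    have e1 : y * a₀⁻¹ * k * w = y * a₀⁻¹ * k * (x⁻¹ * k⁻¹) := by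
      rw [← hxw]; group
    have e2 : x * (y * a₀⁻¹ * k * w) = y * a₀⁻¹ := by
      rw [e1, ← hcen x hxK, mul_assoc (y * a₀⁻¹ * k), hcen x hxK (x⁻¹ * k⁻¹)]
      group
    rw [e2]; group
  have hL' : (⋃ x ∈ (F : Set G), {y | ∃ a ∈ W, ∃ b ∈ W, y = a₀ * x * (a * b)}) ∈ V :=
    mem_of_superset hA hL
  have hR' : (⋃ x ∈ (F : Set G), {y | ∃ a ∈ W, ∃ b ∈ W, y = x * (a * b) * a₀}) ∈ V :=
    mem_of_superset hA hR
  rw [Ultrafilter.finite_biUnion_mem_iff F.finite_toSet] at hL' hR'
  obtain ⟨x, hx, hxV⟩ := hL'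
  obtain ⟨x', hx', hxV'⟩ := hR'
  refine ⟨_, inter_mem hxV hxV', ?_⟩
  rintro p ⟨⟨a, ha, b, hb, hp⟩, ⟨a', ha', b', hb', hp'⟩⟩ q
    ⟨⟨c, hc, d, hd, hq⟩, ⟨c', hc', d', hd', hq'⟩⟩
  constructor
  · have : p⁻¹ * q = (a * b)⁻¹ * (c * d) := by rw [hp, hq]; group
    rw [this]; exact (hWU a ha b hb c hc d hd).1
  · have hx'K : x' ∈ K := hFK x' hx'
    have : q * p⁻¹ = (c' * d') * (a' * b')⁻¹ := by
      have e : q * p⁻¹ = x' * ((c' * d') * (a' * b')⁻¹) * x'⁻¹ := by rw [hp', hq']; group
      rw [e, ← hcen x' hx'K, mul_inv_cancel_right]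
    rw [this]; exact (hWU a' ha' b' hb' c' hc' d' hd').2

/-- The key step: if `x → 1` in `X` along an ultrafilter, then `p x` converges in `G`. -/
theorem key {G : Type u} [Group G] [TopologicalSpace G] [IsTopologicalGroup G] [T2Space G]
    (hcomp : RaikovComplete G) (hdet : CentreDetected G)
    {X : Type v} [Group X] [TopologicalSpace X] [IsTopologicalGroup X]
    (N : Subgroup X) [N.Normal] (hNcl : IsClosed (N : Set X))
    (e : G →* X) (he : Continuous e) (p : X → G) (hp : ∀ x : X, x⁻¹ * e (p x) ∈ N)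
    (heN : ∀ g : G, e g ∈ N ↔ g ∈ Subgroup.center G)
    (U : Ultrafilter X) (hU : (U : Filter X) ≤ 𝓝 1) :
    ∃ z : G, Tendsto p U (𝓝 z) := by
  obtain ⟨K, hKn, hKc, hKcomp, hmin, C, iC1, iC2, iC3, iC4, iC5, f, hf, hfK⟩ := hdet
  have : IsClosed (N : Set X) := hNcl
  -- the map `Φ : G / K → X / N × C`
  let Φ₁ : (G ⧸ K) →* (X ⧸ N) := QuotientGroup.lift K ((QuotientGroup.mk' N).comp e) (by
    intro k hk
    rw [MonoidHom.mem_ker, MonoidHom.comp_apply, QuotientGroup.mk'_apply,
      QuotientGroup.eq_one_iff, heN]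
    exact hKc hk)
  have hΦ₁ : ∀ g : G, Φ₁ (g : G ⧸ K) = ((e g : X) : X ⧸ N) := fun g => rfl
  have hΦ₁c : Continuous Φ₁ := by
    apply Continuous.quotient_lift
    exact (continuous_quotient_mk'.comp he)
  let Φ : (G ⧸ K) →* (X ⧸ N) × C := Φ₁.prod f
  have hΦc : Continuous Φ := hΦ₁c.prodMk hf
  have hΦinj : Function.Injective Φ := by
    rw [injective_iff_map_eq_one]
    intro a ha
    obtain ⟨g, rfl⟩ := QuotientGroup.mk_surjective a
    have h1 : Φ₁ (g : G ⧸ K) = 1 := congrArg Prod.fst ha
    have h2 : f (g : G ⧸ K) = 1 := congrArg Prod.snd ha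
    rw [hΦ₁, QuotientGroup.eq_one_iff, heN] at h1
    rw [QuotientGroup.eq_one_iff]
    exact hfK g h1 h2
  -- by minimality `G / K` carries the topology induced by `Φ`
  have hind : TopologicalSpace.induced Φ inferInstance
      = (inferInstance : TopologicalSpace (G ⧸ K)) := by
    refine hmin.min _ ?_ ?_ ?_
    · exact topologicalGroup_induced Φ
    · let _ : TopologicalSpace (G ⧸ K) := TopologicalSpace.induced Φ inferInstance
      exact T2Space.of_injective_continuous hΦinj continuous_induced_dom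
    · exact continuous_iff_le_induced.1 hΦc
  have hnh : 𝓝 (1 : G ⧸ K) = comap Φ (𝓝 1) := by
    have := @nhds_induced _ _ (inferInstance : TopologicalSpace ((X ⧸ N) × C)) Φ (1 : G ⧸ K)
    rw [hind] at this
    rw [this, map_one]
  -- the ultrafilter of the `Φ (p x)` converges
  set W : Ultrafilter C := (U.map p).map (fun g => f (g : G ⧸ K)) with hW
  have hWlim : (W : Filter C) ≤ 𝓝 W.lim := W.le_nhds_lim
  have hlim : Tendsto (fun x => Φ ((p x : G) : G ⧸ K)) U (𝓝 ((1 : X ⧸ N), W.lim)) := by
    rw [nhds_prod_eq]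
    refine Tendsto.prodMk ?_ ?_
    · have : (fun x => Φ₁ ((p x : G) : G ⧸ K)) = fun x : X => (x : X ⧸ N) := by
        funext x
        rw [hΦ₁]
        exact (QuotientGroup.eq.2 (hp x)).symm
      change Tendsto (fun x => Φ₁ ((p x : G) : G ⧸ K)) U (𝓝 (1 : X ⧸ N))
      rw [this]
      have hc : Tendsto (fun x : X => (x : X ⧸ N)) (𝓝 1) (𝓝 ((1 : X) : X ⧸ N)) :=
        (QuotientGroup.continuous_mk).tendsto 1
      exact hc.mono_left hU
    · exact hWlim
  -- hence `p x` is Cauchy modulo `K`
  have hcau : ∀ V ∈ 𝓝 (1 : G), ∃ A ∈ U.map p, ∀ x ∈ A, ∀ y ∈ A,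
      (∃ k ∈ K, x⁻¹ * y * k ∈ V) ∧ (∃ k ∈ K, y * x⁻¹ * k ∈ V) := by
    intro V hV
    have hV' : ((↑) : G → G ⧸ K) '' V ∈ 𝓝 (1 : G ⧸ K) := by
      have := (QuotientGroup.isOpenMap_coe (N := K)).image_mem_nhds hV
      simpa using this
    rw [hnh] at hV'
    obtain ⟨S, hS, hSV⟩ := mem_comap.1 hV'
    have c1 : Tendsto (fun q : ((X ⧸ N) × C) × ((X ⧸ N) × C) => q.1⁻¹ * q.2)
        (𝓝 (((1 : X ⧸ N), W.lim), ((1 : X ⧸ N), W.lim))) (𝓝 1) := by
      have : Continuous (fun q : ((X ⧸ N) × C) × ((X ⧸ N) × C) => q.1⁻¹ * q.2) := by fun_prop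
      have h := this.tendsto (((1 : X ⧸ N), W.lim), ((1 : X ⧸ N), W.lim))
      simp only [inv_mul_cancel] at h
      exact h
    have c2 : Tendsto (fun q : ((X ⧸ N) × C) × ((X ⧸ N) × C) => q.2 * q.1⁻¹)
        (𝓝 (((1 : X ⧸ N), W.lim), ((1 : X ⧸ N), W.lim))) (𝓝 1) := by
      have : Continuous (fun q : ((X ⧸ N) × C) × ((X ⧸ N) × C) => q.2 * q.1⁻¹) := by fun_prop
      have h := this.tendsto (((1 : X ⧸ N), W.lim), ((1 : X ⧸ N), W.lim))
      simp only [mul_inv_cancel] at h
      exact h
    have hmem := inter_mem (mem_map.1 (c1 hS)) (mem_map.1 (c2 hS))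
    rw [nhds_prod_eq] at hmem
    obtain ⟨P, hP, Q, hQ, hPQ⟩ := Filter.mem_prod_iff.1 hmem
    have hB : (fun x => Φ ((p x : G) : G ⧸ K)) ⁻¹' (P ∩ Q) ∈ U := hlim (inter_mem hP hQ)
    refine ⟨{g : G | Φ (g : G ⧸ K) ∈ P ∩ Q}, hB, ?_⟩
    intro x hx y hy
    have hxy := hPQ (show (Φ (x : G ⧸ K), Φ (y : G ⧸ K)) ∈ P ×ˢ Q from ⟨hx.1, hy.2⟩)
    have h1 : ((x⁻¹ * y : G) : G ⧸ K) ∈ ((↑) : G → G ⧸ K) '' V := by
      apply hSV
      have : Φ ((x⁻¹ * y : G) : G ⧸ K) = (Φ (x : G ⧸ K))⁻¹ * Φ (y : G ⧸ K) := by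
        rw [QuotientGroup.mk_mul, QuotientGroup.mk_inv, map_mul, map_inv]
      rw [mem_preimage, this]
      exact hxy.1
    have h2 : ((y * x⁻¹ : G) : G ⧸ K) ∈ ((↑) : G → G ⧸ K) '' V := by
      apply hSV
      have : Φ ((y * x⁻¹ : G) : G ⧸ K) = Φ (y : G ⧸ K) * (Φ (x : G ⧸ K))⁻¹ := by
        rw [QuotientGroup.mk_mul, QuotientGroup.mk_inv, map_mul, map_inv]
      rw [mem_preimage, this]
      exact hxy.2
    constructor
    · obtain ⟨v, hv, hvx⟩ := h1
      refine ⟨(x⁻¹ * y)⁻¹ * v, QuotientGroup.eq.1 hvx.symm, ?_⟩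
      rw [mul_inv_cancel_left]; exact hv
    · obtain ⟨v, hv, hvx⟩ := h2
      refine ⟨(y * x⁻¹)⁻¹ * v, QuotientGroup.eq.1 hvx.symm, ?_⟩
      rw [mul_inv_cancel_left]; exact hv
  obtain ⟨z, hz⟩ := hcomp ((U.map p : Ultrafilter G) : Filter G) inferInstance
    (cauchy_of_cauchy_mod K hKc hKcomp (U.map p) hcau)
  exact ⟨z, hz⟩

/-- A Raikov complete group with detected centre is conjugation rigid. -/
theorem conjRigid_of_centreDetected {G : Type u} [Group G] [τ : TopologicalSpace G]
    [hτ : IsTopologicalGroup G] [hτ2 : T2Space G] (hcomp : RaikovComplete G) (hdet : CentreDetected G) :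
    ConjRigid G := by
  intro ν hν hle hcl _ U hU
  have hNcl : @IsClosed G ν (Subgroup.center G : Set G) := by
    have h : (Subgroup.center G : Set G) = @closure G ν {1} := by
      ext g; exact (hcl g).symm
    rw [h]
    exact @isClosed_closure G ν {1}
  exact @key G _ τ hτ hτ2 hcomp hdet G _ ν hν (Subgroup.center G) inferInstance hNcl
    (MonoidHom.id G) (continuous_id_iff_le.2 hle) id
    (fun x => by simp) (fun g => Iff.rfl) U hU

/-- From a group `X` with a copy of the minimal, conjugation rigid group `G`. -/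
theorem key2 {G : Type u} [Group G] [TopologicalSpace G] [IsTopologicalGroup G] [T2Space G]
    (hmin : IsMinimalGroup G inferInstance) (hrig : ConjRigid G)
    {X : Type v} [Group X] [TopologicalSpace X] [IsTopologicalGroup X] [T2Space X]
    (e : G →* X) (he : Continuous e) (p : X →* G) (hpe : ∀ g, p (e g) = g)
    (hcomm : ∀ x : X, p x = 1 → ∀ g : G, x * e g = e g * x)
    (U : Ultrafilter X) (hU : (U : Filter X) ≤ 𝓝 1) :
    ∃ z : G, Tendsto p U (𝓝 z) := by
  have heinj : Function.Injective e := fun a b h => by rw [← hpe a, ← hpe b, h]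
  -- `e` is an embedding
  have hind : TopologicalSpace.induced e inferInstance = (inferInstance : TopologicalSpace G) := by
    refine hmin.min _ ?_ ?_ ?_
    · exact topologicalGroup_induced e
    · let _ : TopologicalSpace G := TopologicalSpace.induced e inferInstance
      exact T2Space.of_injective_continuous heinj continuous_induced_dom
    · exact continuous_iff_le_induced.1 he
  have hconj : ∀ (x : X) (g : G), x * e g * x⁻¹ = e (p x * g * (p x)⁻¹) := by
    intro x g
    have h1 : p (x * (e (p x))⁻¹) = 1 := by rw [map_mul, map_inv, hpe, mul_inv_cancel]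
    have h2 := hcomm _ h1 (p x * g * (p x)⁻¹)
    have h3 : e (p x) * e g = e (p x * g * (p x)⁻¹) * e (p x) := by
      rw [← map_mul, ← map_mul]; congr 1; group
    calc x * e g * x⁻¹ = (x * (e (p x))⁻¹) * (e (p x) * e g) * x⁻¹ := by group
      _ = ((x * (e (p x))⁻¹) * e (p x * g * (p x)⁻¹)) * e (p x) * x⁻¹ := by rw [h3]; group
      _ = e (p x * g * (p x)⁻¹) * (x * (e (p x))⁻¹) * e (p x) * x⁻¹ := by rw [h2]
      _ = e (p x * g * (p x)⁻¹) := by group
  set N : Subgroup X := (Subgroup.center G).comap p with hN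
  have hNn : N.Normal := by rw [hN]; infer_instance
  have hmemN : ∀ x : X, x ∈ N ↔ ∀ g : G, x * e g = e g * x := by
    intro x
    rw [hN, Subgroup.mem_comap, Subgroup.mem_center_iff]
    constructor
    · intro h g
      have h1 := hconj x g
      rw [← h g, mul_inv_cancel_right] at h1
      calc x * e g = x * e g * x⁻¹ * x := by group
        _ = e g * x := by rw [h1]
    · intro h g
      have := congrArg p (h g)
      rw [map_mul, map_mul, hpe] at this
      exact this.symm
  have hNcl : IsClosed (N : Set X) := by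
    have : (N : Set X) = ⋂ g : G, {x | x * e g = e g * x} := by
      ext x
      simp only [SetLike.mem_coe, mem_iInter, mem_ofPred_eq]
      exact hmemN x
    rw [this]
    exact isClosed_iInter fun g =>
      isClosed_eq (continuous_id.mul continuous_const) (continuous_const.mul continuous_id)
  -- the topology `ν` on `G`
  let Ψ : G →* (X ⧸ N) := (QuotientGroup.mk' N).comp e
  have hΨc : Continuous Ψ := continuous_quotient_mk'.comp he
  have hΨp : ∀ x : X, Ψ (p x) = (x : X ⧸ N) := by
    intro x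
    refine (QuotientGroup.eq.2 ?_).symm
    rw [hN, Subgroup.mem_comap, map_mul, map_inv, hpe, inv_mul_cancel]
    exact Subgroup.one_mem _
  have hnh : @nhds G (TopologicalSpace.induced Ψ inferInstance) 1 = comap Ψ (𝓝 1) := by
    rw [nhds_induced, map_one]
  have hUν : ((U.map p : Ultrafilter G) : Filter G)
      ≤ @nhds G (TopologicalSpace.induced Ψ inferInstance) 1 := by
    rw [hnh]
    change Filter.map p U ≤ _
    rw [← Filter.tendsto_iff_comap, Filter.tendsto_map'_iff]
    have : Ψ ∘ p = fun x : X => (x : X ⧸ N) := by funext x; exact hΨp x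
    rw [this]
    have hc : Tendsto (fun x : X => (x : X ⧸ N)) (𝓝 1) (𝓝 ((1 : X) : X ⧸ N)) :=
      (QuotientGroup.continuous_mk).tendsto 1
    exact hc.mono_left hU
  have hfin := hrig (TopologicalSpace.induced Ψ inferInstance) (topologicalGroup_induced Ψ)
    (continuous_iff_le_induced.1 hΨc) ?_ ?_ (U.map p) hUν
  · obtain ⟨z, hz⟩ := hfin
    exact ⟨z, hz⟩
  · intro g
    have h1 : @closure G (TopologicalSpace.induced Ψ inferInstance) {1} = Ψ ⁻¹' {1} := by
      let _ : TopologicalSpace G := TopologicalSpace.induced Ψ inferInstance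
      have hi : Topology.IsInducing Ψ := ⟨rfl⟩
      rw [hi.closure_eq_preimage_closure_image]
      simp
    rw [h1, mem_preimage, mem_singleton_iff]
    change ((e g : X) : X ⧸ N) = 1 ↔ _
    rw [QuotientGroup.eq_one_iff, hN, Subgroup.mem_comap, hpe]
  · intro y
    -- the action of `X` on `G`
    have hact : Tendsto (fun q : X × G => p q.1 * q.2 * (p q.1)⁻¹) (𝓝 1 ×ˢ 𝓝 y) (𝓝 y) := by
      have hy : 𝓝 y = comap e (𝓝 (e y)) := by
        have := @nhds_induced _ _ (inferInstance : TopologicalSpace X) e y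
        rwa [hind] at this
      conv_rhs => rw [hy]
      rw [tendsto_comap_iff]
      have : (e ∘ fun q : X × G => p q.1 * q.2 * (p q.1)⁻¹) =
          fun q : X × G => q.1 * e q.2 * q.1⁻¹ := by
        funext q; exact (hconj q.1 q.2).symm
      rw [this]
      have hc : Continuous (fun q : X × G => q.1 * e q.2 * q.1⁻¹) := by fun_prop
      have := hc.tendsto (1, y)
      simpa [nhds_prod_eq] using this
    intro V hV
    obtain ⟨A, hA, B, hB, hAB⟩ := Filter.mem_prod_iff.1 (hact hV)
    have hA' : ((↑) : X → X ⧸ N) '' A ∈ 𝓝 (1 : X ⧸ N) := by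
      have := (QuotientGroup.isOpenMap_coe (N := N)).image_mem_nhds hA
      simpa using this
    rw [hnh, mem_map, Filter.mem_prod_iff]
    refine ⟨Ψ ⁻¹' (((↑) : X → X ⧸ N) '' A), preimage_mem_comap hA', B, hB, ?_⟩
    rintro ⟨g, b⟩ ⟨⟨x, hx, hxg⟩, hb⟩
    have h1 : p x * b * (p x)⁻¹ ∈ V := hAB (show (x, b) ∈ A ×ˢ B from ⟨hx, hb⟩)
    have h2 : (p x)⁻¹ * g ∈ Subgroup.center G := by
      have : x⁻¹ * e g ∈ N := QuotientGroup.eq.1 hxg
      rw [hN, Subgroup.mem_comap, map_mul, map_inv, hpe] at this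
      exact this
    have h3 : g * b * g⁻¹ = p x * b * (p x)⁻¹ := by
      have h4 := (Subgroup.mem_center_iff.1 h2) b
      have : g = p x * ((p x)⁻¹ * g) := by group
      calc g * b * g⁻¹ = p x * (((p x)⁻¹ * g) * b) * g⁻¹ := by group
        _ = p x * (b * ((p x)⁻¹ * g)) * g⁻¹ := by rw [h4]
        _ = p x * b * (p x)⁻¹ := by group
    change g * b * g⁻¹ ∈ V
    rw [h3]; exact h1

/-- Any product of minimal conjugation rigid groups is minimal. -/
theorem prod_rigid {I : Type w} (G : I → Type u) [∀ i, Group (G i)]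
    [∀ i, TopologicalSpace (G i)] [∀ i, IsTopologicalGroup (G i)] [∀ i, T2Space (G i)]
    (hmin : ∀ i, IsMinimalGroup (G i) inferInstance) (hrig : ∀ i, ConjRigid (G i)) :
    IsMinimalGroup (∀ i, G i) Pi.topologicalSpace := by
  classical
  refine ⟨inferInstance, inferInstance, ?_⟩
  intro σ hσ hσ2 hle
  refine IsTopologicalGroup.ext hσ inferInstance (le_antisymm ?_ (nhds_mono hle))
  rw [Filter.le_iff_ultrafilter]
  intro U hU
  have hz : ∀ i, ∃ z : G i, Tendsto (fun x : (∀ i, G i) => x i) U (𝓝 z) := by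
    intro i
    have hcont : @Continuous _ _ _ σ (MonoidHom.mulSingle G i) := by
      refine continuous_le_rng hle ?_
      exact continuous_mulSingle i
    refine @key2 (G i) _ _ _ _ (hmin i) (hrig i) (∀ i, G i) _ σ hσ hσ2 (MonoidHom.mulSingle G i)
      hcont (Pi.evalMonoidHom G i) ?_ ?_ U hU
    · intro g; simp
    · intro x hx g
      funext j
      by_cases h : j = i
      · subst h
        have hx' : x j = 1 := hx
        simp [hx']
      · simp [Pi.mulSingle_eq_of_ne h]
  choose z hz using hz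
  have h1 : (U : Filter (∀ i, G i)) ≤ @nhds _ Pi.topologicalSpace z := by
    have : Tendsto (fun x : (∀ i, G i) => x) (U : Filter (∀ i, G i))
        (@nhds _ Pi.topologicalSpace z) := tendsto_pi_nhds.2 hz
    rwa [Tendsto, Filter.map_id'] at this
  have h2 : (U : Filter (∀ i, G i)) ≤ @nhds _ σ z := h1.trans (nhds_mono hle)
  have h3 : z = 1 := by
    have := @eq_of_nhds_neBot _ σ hσ2 z 1 (U.neBot.mono (le_inf h2 hU))
    exact this
  rw [← h3]
  exact h1

/-- Step for the product of a Raikov complete minimal group and a minimal group. -/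
theorem key3 {A : Type u} {H : Type v} {X : Type w}
    [Group A] [TopologicalSpace A] [IsTopologicalGroup A] [T2Space A]
    [Group H] [TopologicalSpace H] [IsTopologicalGroup H] [T2Space H]
    [Group X] [TopologicalSpace X] [IsTopologicalGroup X] [T2Space X]
    (hA : IsMinimalGroup A inferInstance) (hAc : RaikovComplete A)
    (hH : IsMinimalGroup H inferInstance)
    (e : A →* X) (he : Continuous e) (p : X →* A) (hpe : ∀ a, p (e a) = a)
    (i : H →* X) (hi : Continuous i) (q : X →* H) (hqi : ∀ h, q (i h) = h)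
    (hqe : ∀ a, q (e a) = 1) (hfac : ∀ x, x = e (p x) * i (q x))
    (U : Ultrafilter X) (hU : (U : Filter X) ≤ 𝓝 1) :
    Tendsto p U (𝓝 1) ∧ Tendsto q U (𝓝 1) := by
  have heinj : Function.Injective e := fun a b h => by rw [← hpe a, ← hpe b, h]
  have hind : TopologicalSpace.induced e inferInstance = (inferInstance : TopologicalSpace A) := by
    refine hA.min _ ?_ ?_ ?_
    · exact topologicalGroup_induced e
    · let _ : TopologicalSpace A := TopologicalSpace.induced e inferInstance
      exact T2Space.of_injective_continuous heinj continuous_induced_dom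
    · exact continuous_iff_le_induced.1 he
  have hnA : 𝓝 (1 : A) = comap e (𝓝 1) := by
    have := @nhds_induced _ _ (inferInstance : TopologicalSpace X) e (1 : A)
    rw [hind] at this
    rw [this, map_one]
  have hmem : ∀ x : X, q x = 1 → e (p x) = x := by
    intro x hx
    have := hfac x
    rw [hx, map_one, mul_one] at this
    exact this.symm
  set N : Subgroup X := q.ker with hN
  have hNcl : IsClosed (N : Set X) := by
    rw [isClosed_iff_ultrafilter]
    intro x u hu hNu
    have hcau : ∀ W ∈ 𝓝 (1 : A), ∃ B ∈ ((u.map p : Ultrafilter A) : Filter A),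
        ∀ y ∈ B, ∀ z ∈ B, y⁻¹ * z ∈ W ∧ z * y⁻¹ ∈ W := by
      intro W hW
      rw [hnA] at hW
      obtain ⟨S, hS, hSW⟩ := mem_comap.1 hW
      have c1 : Tendsto (fun r : X × X => r.1⁻¹ * r.2) (𝓝 (x, x)) (𝓝 1) := by
        have : Continuous (fun r : X × X => r.1⁻¹ * r.2) := by fun_prop
        have h := this.tendsto (x, x)
        simp only [inv_mul_cancel] at h
        exact h
      have c2 : Tendsto (fun r : X × X => r.2 * r.1⁻¹) (𝓝 (x, x)) (𝓝 1) := by
        have : Continuous (fun r : X × X => r.2 * r.1⁻¹) := by fun_prop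
        have h := this.tendsto (x, x)
        simp only [mul_inv_cancel] at h
        exact h
      have hm := inter_mem (mem_map.1 (c1 hS)) (mem_map.1 (c2 hS))
      rw [nhds_prod_eq] at hm
      obtain ⟨P, hP, Q, hQ, hPQ⟩ := Filter.mem_prod_iff.1 hm
      have hB : (P ∩ Q) ∩ (N : Set X) ∈ u := inter_mem (hu (inter_mem hP hQ)) hNu
      refine ⟨p '' ((P ∩ Q) ∩ (N : Set X)), ?_, ?_⟩
      · exact image_mem_map hB
      · rintro y ⟨y', ⟨hy1, hy2⟩, rfl⟩ z ⟨z', ⟨hz1, hz2⟩, rfl⟩
        have hyz := hPQ (show (y', z') ∈ P ×ˢ Q from ⟨hy1.1, hz1.2⟩)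
        have ey : e (p y') = y' := hmem y' hy2
        have ez : e (p z') = z' := hmem z' hz2
        constructor
        · apply hSW
          rw [mem_preimage, map_mul, map_inv, ey, ez]
          exact hyz.1
        · apply hSW
          rw [mem_preimage, map_mul, map_inv, ey, ez]
          exact hyz.2
    obtain ⟨a, ha⟩ := hAc _ inferInstance hcau
    have h1 : Tendsto (fun y => e (p y)) u (𝓝 (e a)) := by
      have h2 : Tendsto p u (𝓝 a) := ha
      exact (he.tendsto a).comp h2
    have h3 : (fun y => e (p y)) =ᶠ[(u : Filter X)] id := by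
      filter_upwards [hNu] with y hy
      exact hmem y hy
    have h4 : (u : Filter X) ≤ 𝓝 (e a) := by
      have := h1.congr' h3
      rwa [tendsto_id'] at this
    have h5 : x = e a := eq_of_nhds_neBot (u.neBot.mono (le_inf hu h4))
    rw [h5]
    exact hqe a
  have : IsClosed (N : Set X) := hNcl
  let Ψ : H →* (X ⧸ N) := (QuotientGroup.mk' N).comp i
  have hΨc : Continuous Ψ := continuous_quotient_mk'.comp hi
  have hΨinj : Function.Injective Ψ := by
    rw [injective_iff_map_eq_one]
    intro h hh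
    have h1 : ((i h : X) : X ⧸ N) = 1 := hh
    rw [QuotientGroup.eq_one_iff, hN, MonoidHom.mem_ker, hqi] at h1
    exact h1
  have hindH : TopologicalSpace.induced Ψ inferInstance
      = (inferInstance : TopologicalSpace H) := by
    refine hH.min _ ?_ ?_ ?_
    · exact topologicalGroup_induced Ψ
    · let _ : TopologicalSpace H := TopologicalSpace.induced Ψ inferInstance
      exact T2Space.of_injective_continuous hΨinj continuous_induced_dom
    · exact continuous_iff_le_induced.1 hΨc
  have hnH : 𝓝 (1 : H) = comap Ψ (𝓝 1) := by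
    have := @nhds_induced _ _ (inferInstance : TopologicalSpace (X ⧸ N)) Ψ (1 : H)
    rw [hindH] at this
    rw [this, map_one]
  have hq : Tendsto q U (𝓝 1) := by
    rw [hnH, tendsto_comap_iff]
    have : Ψ ∘ q = fun x : X => (x : X ⧸ N) := by
      funext x
      refine (QuotientGroup.eq.2 ?_).symm
      rw [hN, MonoidHom.mem_ker, map_mul, map_inv, hqi, inv_mul_cancel]
    rw [this]
    have hc : Tendsto (fun x : X => (x : X ⧸ N)) (𝓝 1) (𝓝 ((1 : X) : X ⧸ N)) :=
      (QuotientGroup.continuous_mk).tendsto 1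
    exact hc.mono_left hU
  refine ⟨?_, hq⟩
  rw [hnA, tendsto_comap_iff]
  have h1 : Tendsto (fun x => i (q x)) U (𝓝 1) := by
    have := (hi.tendsto 1).comp hq
    rwa [map_one] at this
  have h2 : Tendsto (fun x : X => x) U (𝓝 1) := hU
  have h3 : Tendsto (fun x => x * (i (q x))⁻¹) U (𝓝 1) := by
    have := h2.mul h1.inv
    rwa [inv_one, mul_one] at this
  have h4 : (e ∘ p) = fun x => x * (i (q x))⁻¹ := by
    funext x
    have := hfac x
    change e (p x) = x * (i (q x))⁻¹
    rw [eq_mul_inv_iff_mul_eq]; exact this.symm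
  rw [h4]; exact h3

/-- The product of a Raikov complete minimal group and a minimal group is minimal. -/
theorem prod_two {A : Type u} {H : Type v}
    [Group A] [TopologicalSpace A] [IsTopologicalGroup A] [T2Space A]
    [Group H] [TopologicalSpace H] [IsTopologicalGroup H] [T2Space H]
    (hA : IsMinimalGroup A inferInstance) (hAc : RaikovComplete A)
    (hH : IsMinimalGroup H inferInstance) :
    IsMinimalGroup (A × H) instTopologicalSpaceProd := by
  refine ⟨inferInstance, inferInstance, ?_⟩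
  have hc1' : Continuous (MonoidHom.inl A H) := by
    change Continuous (fun a : A => ((a, 1) : A × H))
    fun_prop
  have hc2' : Continuous (MonoidHom.inr A H) := by
    change Continuous (fun h : H => ((1, h) : A × H))
    fun_prop
  intro σ hσ hσ2 hle
  refine IsTopologicalGroup.ext hσ inferInstance (le_antisymm ?_ (nhds_mono hle))
  rw [Filter.le_iff_ultrafilter]
  intro U hU
  have hc1 : @Continuous _ _ _ σ (MonoidHom.inl A H) := continuous_le_rng hle hc1'
  have hc2 : @Continuous _ _ _ σ (MonoidHom.inr A H) := continuous_le_rng hle hc2'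
  have h := @key3 A H (A × H) _ _ _ _ _ _ _ _ _ σ hσ hσ2 hA hAc hH
    (MonoidHom.inl A H) hc1 (MonoidHom.fst A H) (fun a => rfl)
    (MonoidHom.inr A H) hc2 (MonoidHom.snd A H) (fun h => rfl) (fun a => rfl)
    (fun x => by ext <;> simp) U hU
  have h2 : Tendsto (fun x : A × H => (x.1, x.2)) (U : Filter (A × H))
      (@nhds _ instTopologicalSpaceProd (1, 1)) := by
    rw [nhds_prod_eq]
    exact h.1.prodMk h.2
  exact h2

/-- Minimality is invariant under topological isomorphisms. -/
theorem of_equiv {G : Type u} {H : Type v}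
    [Group G] [τ : TopologicalSpace G] [hG : IsTopologicalGroup G] [hG2 : T2Space G]
    [Group H] [τ' : TopologicalSpace H] [IsTopologicalGroup H] [T2Space H]
    (φ : G ≃* H) (h1 : Continuous φ) (h2 : Continuous φ.symm)
    (hH : IsMinimalGroup H τ') : IsMinimalGroup G τ := by
  have hh : TopologicalSpace.induced φ.symm τ = τ' := by
    apply le_antisymm
    · have h3 : TopologicalSpace.induced φ.symm τ
          ≤ TopologicalSpace.induced φ.symm (TopologicalSpace.induced φ τ') :=
        induced_mono (continuous_iff_le_induced.1 h1)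
      rw [induced_compose] at h3
      have h4 : (φ ∘ φ.symm : H → H) = id := by funext x; simp
      rwa [h4, induced_id] at h3
    · exact continuous_iff_le_induced.1 h2
  have hid : (φ.symm ∘ φ : G → G) = id := by funext x; simp
  have e2 : TopologicalSpace.induced φ τ' = τ := by
    rw [← hh, induced_compose, hid, induced_id]
  refine ⟨hG, hG2, ?_⟩
  intro σ hσ hσ2 hle
  have hc : @Continuous H G τ' σ φ.symm := continuous_le_rng hle h2
  have hs : TopologicalSpace.induced φ.symm σ = τ' := by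
    refine hH.min _ ?_ ?_ ?_
    · exact topologicalGroup_induced φ.symm
    · exact @T2Space.of_injective_continuous H G (TopologicalSpace.induced φ.symm σ) σ hσ2
        φ.symm φ.symm.injective (continuous_induced_dom)
    · exact continuous_iff_le_induced.1 hc
  have e1 : TopologicalSpace.induced φ (TopologicalSpace.induced φ.symm σ) = σ := by
    rw [induced_compose, hid, induced_id]
  rw [← e1, hs, e2]

/-- Induction on the number of exceptional factors. -/
theorem main_ind (n : ℕ) : ∀ {I : Type w} (G : I → Type u) [∀ i, Group (G i)]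
    [∀ i, TopologicalSpace (G i)] [∀ i, IsTopologicalGroup (G i)] [∀ i, T2Space (G i)]
    (F : Finset I) (_ : F.card = n)
    (_ : ∀ i, RaikovComplete (G i)) (_ : ∀ i, IsMinimalGroup (G i) inferInstance)
    (_ : ∀ i, i ∉ F → ConjRigid (G i)),
    IsMinimalGroup (∀ i, G i) Pi.topologicalSpace := by
  classical
  induction n with
  | zero =>
    intro I G _ _ _ _ F hF hcomp hmin hrig
    have : F = ∅ := Finset.card_eq_zero.1 hF
    subst this
    exact prod_rigid G hmin (fun i => hrig i (Finset.notMem_empty i))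
  | succ n ih =>
    intro I G _ _ _ _ F hF hcomp hmin hrig
    obtain ⟨i₀, hi₀⟩ : F.Nonempty := by
      rw [← Finset.card_pos, hF]; omega
    have hrest : IsMinimalGroup (∀ j : {j // j ≠ i₀}, G j) Pi.topologicalSpace := by
      refine ih (fun j : {j // j ≠ i₀} => G j) (F.subtype (fun j => j ≠ i₀)) ?_
        (fun j => hcomp j) (fun j => hmin j) ?_
      · rw [Finset.card_subtype, Finset.filter_ne', Finset.card_erase_of_mem hi₀, hF]
        rfl
      · intro j hj
        apply hrig
        intro hjF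
        exact hj (by rw [Finset.mem_subtype]; exact hjF)
    have hprod := prod_two (hmin i₀) (hcomp i₀) hrest
    let φ : (∀ j, G j) ≃* G i₀ × (∀ j : {j // j ≠ i₀}, G j) :=
      { Equiv.piSplitAt i₀ G with
        map_mul' := fun x y => rfl }
    exact of_equiv φ (Homeomorph.piSplitAt i₀ G).continuous
      (Homeomorph.piSplitAt i₀ G).symm.continuous hprod

/-- `G` is a generalised Heisenberg group `(A × E) ⋊ F` with `A` compact, `E` and `F` abelian, built
from a separated biadditive map `w : E × F → A`, `w (e, f) = [s e, t f]`. Here `a` and `b` are the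
projections to `E` and `F`, `s` and `t` the inclusions of `E` and `F`, and `A` is the set
`{a = 1, b = 1}`, which is central. -/
def HeisenbergType (G : Type u) [Group G] [TopologicalSpace G] : Prop :=
  ∃ (E F : Type u) (_ : CommGroup E) (_ : CommGroup F) (_ : TopologicalSpace E)
    (_ : TopologicalSpace F) (_ : IsTopologicalGroup E) (_ : IsTopologicalGroup F)
    (_ : T2Space E) (_ : T2Space F) (a : G →* E) (b : G →* F) (s : E →* G) (t : F →* G),
    Continuous a ∧ Continuous b ∧ Continuous s ∧ Continuous t ∧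
    (∀ e, a (s e) = e) ∧ (∀ e, b (s e) = 1) ∧ (∀ f, a (t f) = 1) ∧ (∀ f, b (t f) = f) ∧
    IsCompact {g : G | a g = 1 ∧ b g = 1} ∧
    (∀ g : G, a g = 1 → b g = 1 → g ∈ Subgroup.center G) ∧
    (∀ e, (∀ f, s e * t f = t f * s e) → e = 1) ∧
    (∀ f, (∀ e, s e * t f = t f * s e) → f = 1)

/-- One half of the proof that Heisenberg type groups are conjugation rigid. -/
theorem heis_half {G : Type u} [Group G] [τ : TopologicalSpace G] [IsTopologicalGroup G] [T2Space G]
    {X : Type u} [Group X] [TopologicalSpace X] [IsTopologicalGroup X]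
    (j : X →* G) (k : G →* X) (hk : Continuous k) (hjk : ∀ g, j (k g) = g)
    (hconj : ∀ y : G, Tendsto (fun q : X × G => j q.1 * q.2 * (j q.1)⁻¹) (𝓝 1 ×ˢ 𝓝 y) (𝓝 y))
    {E F : Type u} [CommGroup E] [CommGroup F] [τE : TopologicalSpace E] [τF : TopologicalSpace F]
    [IsTopologicalGroup E] [IsTopologicalGroup F] [T2Space E] [T2Space F]
    (a : G →* E) (s : E →* G) (t : F →* G) (hs : Continuous s) (ht : Continuous t)
    (has : ∀ e, a (s e) = e)
    (hcomm : ∀ (g : G) (f : F), g * t f * g⁻¹ = s (a g) * t f * (s (a g))⁻¹)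
    (hsep : ∀ e, (∀ f, s e * t f = t f * s e) → e = 1)
    (hmin : ∀ (σE : TopologicalSpace E), @IsTopologicalGroup E σE _ → @T2Space E σE →
      τE ≤ σE →
      @Continuous (E × F) G (@instTopologicalSpaceProd E F σE τF) τ
        (fun q : E × F => s q.1 * t q.2 * (s q.1)⁻¹ * (t q.2)⁻¹) → σE = τE) :
    Tendsto (fun x => a (j x)) (𝓝 1) (𝓝 1) := by
  -- conjugation is continuous in the first variable
  have hc1 : ∀ y : G, Continuous (fun x : X => j x * y * (j x)⁻¹) := by
    intro y
    rw [continuous_iff_continuousAt]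
    intro x₀
    have h1 : Tendsto (fun x : X => x₀⁻¹ * x) (𝓝 x₀) (𝓝 1) := by
      have : Continuous (fun x : X => x₀⁻¹ * x) := by fun_prop
      have h := this.tendsto x₀
      simp only [inv_mul_cancel] at h
      exact h
    have h2 : Tendsto (fun x : X => (x₀⁻¹ * x, y)) (𝓝 x₀) (𝓝 1 ×ˢ 𝓝 y) :=
      h1.prodMk tendsto_const_nhds
    have h3 := (hconj y).comp h2
    have h4 : Tendsto (fun x : X => j x₀ * (j (x₀⁻¹ * x) * y * (j (x₀⁻¹ * x))⁻¹) * (j x₀)⁻¹)
        (𝓝 x₀) (𝓝 (j x₀ * y * (j x₀)⁻¹)) :=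
      (tendsto_const_nhds.mul h3).mul tendsto_const_nhds
    have h5 : (fun x : X => j x₀ * (j (x₀⁻¹ * x) * y * (j (x₀⁻¹ * x))⁻¹) * (j x₀)⁻¹)
        = fun x : X => j x * y * (j x)⁻¹ := by
      funext x
      rw [map_mul, map_inv]; group
    rw [h5] at h4
    exact h4
  set N : Subgroup X := (a.comp j).ker with hN
  have hNcl : IsClosed (N : Set X) := by
    have : (N : Set X) = ⋂ f : F, {x | j x * t f * (j x)⁻¹ = t f} := by
      ext x
      simp only [SetLike.mem_coe, mem_iInter, mem_ofPred_eq]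
      rw [hN, MonoidHom.mem_ker, MonoidHom.comp_apply]
      constructor
      · intro h f
        rw [hcomm, h, map_one]; simp
      · intro h
        apply hsep
        intro f
        have h1 := h f
        rw [hcomm] at h1
        exact mul_inv_eq_iff_eq_mul.1 h1
    rw [this]
    exact isClosed_iInter fun f => isClosed_eq (hc1 (t f)) continuous_const
  have : IsClosed (N : Set X) := hNcl
  let Ψ : E →* (X ⧸ N) := (QuotientGroup.mk' N).comp (k.comp s)
  have hΨc : Continuous Ψ := continuous_quotient_mk'.comp (hk.comp hs)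
  have hΨinj : Function.Injective Ψ := by
    rw [injective_iff_map_eq_one]
    intro e he
    have h1 : ((k (s e) : X) : X ⧸ N) = 1 := he
    rw [QuotientGroup.eq_one_iff, hN, MonoidHom.mem_ker, MonoidHom.comp_apply, hjk, has] at h1
    exact h1
  have hnh : @nhds E (TopologicalSpace.induced Ψ inferInstance) 1 = comap Ψ (𝓝 1) := by
    rw [nhds_induced, map_one]
  -- the action of `E`
  have hact1 : ∀ f₀ : F, Tendsto (fun q : E × F => s q.1 * t q.2 * (s q.1)⁻¹)
      ((comap Ψ (𝓝 1)) ×ˢ 𝓝 f₀) (𝓝 (t f₀)) := by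
    intro f₀ V hV
    obtain ⟨A, hA, B, hB, hAB⟩ := Filter.mem_prod_iff.1 (hconj (t f₀) hV)
    have hA' : ((↑) : X → X ⧸ N) '' A ∈ 𝓝 (1 : X ⧸ N) := by
      have := (QuotientGroup.isOpenMap_coe (N := N)).image_mem_nhds hA
      simpa using this
    rw [mem_map, Filter.mem_prod_iff]
    refine ⟨Ψ ⁻¹' (((↑) : X → X ⧸ N) '' A), preimage_mem_comap hA', t ⁻¹' B,
      ht.tendsto f₀ hB, ?_⟩
    rintro ⟨e, f⟩ ⟨⟨x, hx, hxe⟩, hf⟩
    have h1 : j x * t f * (j x)⁻¹ ∈ V := hAB (show (x, t f) ∈ A ×ˢ B from ⟨hx, hf⟩)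
    have h2 : x⁻¹ * k (s e) ∈ N := QuotientGroup.eq.1 hxe
    rw [hN, MonoidHom.mem_ker, MonoidHom.comp_apply, map_mul, map_mul, hjk, has, map_inv,
      map_inv, inv_mul_eq_one] at h2
    rw [hcomm, h2] at h1
    exact h1
  have hE : TopologicalSpace.induced Ψ inferInstance = τE := by
    refine hmin _ ?_ ?_ ?_ ?_
    · exact topologicalGroup_induced Ψ
    · let _ : TopologicalSpace E := TopologicalSpace.induced Ψ inferInstance
      exact T2Space.of_injective_continuous hΨinj continuous_induced_dom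
    · exact continuous_iff_le_induced.1 hΨc
    · have hEg : @IsTopologicalGroup E (TopologicalSpace.induced Ψ inferInstance) _ :=
        topologicalGroup_induced Ψ
      let τ₀ : TopologicalSpace E := TopologicalSpace.induced Ψ inferInstance
      rw [continuous_iff_continuousAt]
      rintro ⟨e₀, f₀⟩
      have g1 : @Tendsto (E × F) E (fun q : E × F => e₀⁻¹ * q.1)
          (@nhds E τ₀ e₀ ×ˢ 𝓝 f₀) (@nhds E τ₀ 1) := by
        have h0 : @Tendsto E E (fun e => e₀⁻¹ * e) (@nhds E τ₀ e₀) (@nhds E τ₀ 1) := by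
          have := (@continuous_const_mul E τ₀ _ _ e₀⁻¹).tendsto e₀
          rw [inv_mul_cancel] at this
          exact this
        exact h0.comp tendsto_fst
      have g2 : Tendsto (fun q : E × F => (e₀⁻¹ * q.1, q.2)) (@nhds E τ₀ e₀ ×ˢ 𝓝 f₀)
          ((comap Ψ (𝓝 1)) ×ˢ 𝓝 f₀) := by
        have g1' := g1
        rw [show @nhds E τ₀ 1 = comap Ψ (𝓝 1) from hnh] at g1'
        exact g1'.prodMk tendsto_snd
      have g3 := (hact1 f₀).comp g2
      have g4 : Tendsto (fun q : E × F => t q.2) (@nhds E τ₀ e₀ ×ˢ 𝓝 f₀) (𝓝 (t f₀)) :=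
        (ht.tendsto f₀).comp tendsto_snd
      have g5 : Tendsto (fun q : E × F => s e₀ * (s (e₀⁻¹ * q.1) * t q.2 * (s (e₀⁻¹ * q.1))⁻¹)
          * (s e₀)⁻¹ * (t q.2)⁻¹) (@nhds E τ₀ e₀ ×ˢ 𝓝 f₀)
          (𝓝 (s e₀ * t f₀ * (s e₀)⁻¹ * (t f₀)⁻¹)) :=
        (((tendsto_const_nhds (x := s e₀)).mul g3).mul tendsto_const_nhds).mul g4.inv
      have g6 : (fun q : E × F => s e₀ * (s (e₀⁻¹ * q.1) * t q.2 * (s (e₀⁻¹ * q.1))⁻¹)
          * (s e₀)⁻¹ * (t q.2)⁻¹)
          = fun q : E × F => s q.1 * t q.2 * (s q.1)⁻¹ * (t q.2)⁻¹ := by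
        funext q
        rw [map_mul, map_inv]; group
      rw [g6] at g5
      have g7 : @nhds (E × F) (@instTopologicalSpaceProd E F τ₀ τF) (e₀, f₀)
          = @nhds E τ₀ e₀ ×ˢ 𝓝 f₀ := @nhds_prod_eq E F τ₀ τF e₀ f₀
      change Tendsto _ (@nhds (E × F) (@instTopologicalSpaceProd E F τ₀ τF) (e₀, f₀)) _
      rw [g7]
      exact g5
  have hfin : 𝓝 (1 : E) = comap Ψ (𝓝 1) := by
    rw [← hnh, hE]
  rw [hfin, tendsto_comap_iff]
  have h1 : (Ψ ∘ fun x => a (j x)) = fun x : X => (x : X ⧸ N) := by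
    funext x
    refine (QuotientGroup.eq.2 ?_).symm
    rw [hN, MonoidHom.mem_ker, MonoidHom.comp_apply, map_mul, map_inv]
    change a ((j x)⁻¹ * j (k (s (a (j x))))) = 1
    rw [hjk, map_mul, map_inv, has, inv_mul_cancel]
  rw [h1]
  exact (QuotientGroup.continuous_mk).tendsto 1


/-- A criterion for an induced topology to be a group topology. -/
theorem induced_group_top {G : Type u} [Group G] {X : Type v} [TopologicalSpace X] (Φ : G → X)
    (Ψ : X × X → X) (Θ : X → X) (hΨ : Continuous Ψ) (hΘ : Continuous Θ)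
    (h1 : ∀ g h, Φ (g * h) = Ψ (Φ g, Φ h)) (h2 : ∀ g, Φ g⁻¹ = Θ (Φ g)) :
    @IsTopologicalGroup G (TopologicalSpace.induced Φ inferInstance) _ := by
  let _ : TopologicalSpace G := TopologicalSpace.induced Φ inferInstance
  have hΦ : Continuous Φ := continuous_induced_dom
  exact
  { continuous_mul := by
      rw [continuous_induced_rng]
      have : (Φ ∘ fun p : G × G => p.1 * p.2) = Ψ ∘ (fun p : G × G => (Φ p.1, Φ p.2)) := by
        funext p; exact h1 _ _
      rw [this]
      exact hΨ.comp ((hΦ.comp continuous_fst).prodMk (hΦ.comp continuous_snd))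
    continuous_inv := by
      rw [continuous_induced_rng]
      have : (Φ ∘ fun p : G => p⁻¹) = Θ ∘ Φ := by funext p; exact h2 _
      rw [this]; exact hΘ.comp hΦ }

/-- In a minimal generalised Heisenberg group, coarser topologies on the factors for which the
biadditive map stays continuous make the inclusions continuous. -/
theorem heis_sections {G : Type u} [Group G] [τ : TopologicalSpace G] [IsTopologicalGroup G]
    [T2Space G] (hG : IsMinimalGroup G τ)
    {E F : Type u} [CommGroup E] [CommGroup F] [TopologicalSpace E] [TopologicalSpace F]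
    [IsTopologicalGroup E] [IsTopologicalGroup F] [T2Space E] [T2Space F]
    (a : G →* E) (b : G →* F) (s : E →* G) (t : F →* G)
    (ha : Continuous a) (hb : Continuous b)
    (hsa : Continuous (fun g => s (a g))) (htb : Continuous (fun g => t (b g)))
    (has : ∀ e, a (s e) = e) (hbs : ∀ e, b (s e) = 1) (hat : ∀ f, a (t f) = 1)
    (hbt : ∀ f, b (t f) = f)
    (hZ : ∀ g : G, a g = 1 → b g = 1 → g ∈ Subgroup.center G)
    (hw : Continuous (fun q : E × F => s q.1 * t q.2 * (s q.1)⁻¹ * (t q.2)⁻¹)) :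
    Continuous s ∧ Continuous t := by
  let α : G → G := fun g => (s (a g) * t (b g))⁻¹ * g
  let w : E × F → G := fun q => s q.1 * t q.2 * (s q.1)⁻¹ * (t q.2)⁻¹
  have hw' : Continuous w := hw
  let Φ : G → E × F × G := fun g => (a g, b g, α g)
  have hΦ : Continuous Φ := ha.prodMk (hb.prodMk (((hsa.mul htb).inv).mul continuous_id))
  have hαc : ∀ g x, x * α g = α g * x := by
    intro g x
    have : α g ∈ Subgroup.center G := by
      apply hZ
      · simp [α, has, hat]
      · simp [α, hbs, hbt]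
    exact Subgroup.mem_center_iff.1 this x
  have hwc : ∀ q x, x * w q = w q * x := by
    intro q x
    have : w q ∈ Subgroup.center G := by
      apply hZ
      · simp [w, has, hat]
      · simp [w, hbs, hbt]
    exact Subgroup.mem_center_iff.1 this x
  have hdec : ∀ g, s (a g) * t (b g) * α g = g := by
    intro g
    simp only [α]; group
  have hmul : ∀ g h, α (g * h) = w ((a h)⁻¹, b g) * α g * α h := by
    intro g h
    have e1 : (s (a (g * h)) * t (b (g * h))) * α (g * h) = g * h := hdec (g * h)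
    have e2 : (s (a (g * h)) * t (b (g * h))) * (w ((a h)⁻¹, b g) * α g * α h) = g * h := by
      have e3 : s (a (g * h)) * t (b (g * h)) * (w ((a h)⁻¹, b g) * α g * α h)
          = s (a g) * s (a h) * (w ((a h)⁻¹, b g)) * t (b g) * t (b h) * α g * α h := by
        rw [map_mul, map_mul, map_mul, map_mul]
        have := hwc ((a h)⁻¹, b g) (t (b g) * t (b h))
        calc s (a g) * s (a h) * (t (b g) * t (b h)) * (w ((a h)⁻¹, b g) * α g * α h)
            = s (a g) * s (a h) * ((t (b g) * t (b h)) * w ((a h)⁻¹, b g)) * α g * α h := by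
              group
          _ = _ := by rw [this]; group
      have e4 : s (a g) * s (a h) * (w ((a h)⁻¹, b g)) * t (b g)
          = s (a g) * t (b g) * s (a h) := by
        simp only [w, map_inv]; group
      rw [e3, e4]
      calc s (a g) * t (b g) * s (a h) * t (b h) * α g * α h
          = s (a g) * t (b g) * ((s (a h) * t (b h)) * α g) * α h := by group
        _ = s (a g) * t (b g) * α g * (s (a h) * t (b h) * α h) := by
            rw [hαc g]; group
        _ = g * h := by rw [hdec, hdec]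
    exact mul_left_cancel (e1.trans e2.symm)
  have hα1 : α 1 = 1 := by simp [α]
  have hinv : ∀ g, α g⁻¹ = (w (a g, b g) * α g)⁻¹ := by
    intro g
    have h := hmul g g⁻¹
    rw [mul_inv_cancel, hα1, map_inv, inv_inv] at h
    exact (inv_eq_of_mul_eq_one_right h.symm).symm
  have hgrp : @IsTopologicalGroup G (TopologicalSpace.induced Φ inferInstance) _ := by
    refine induced_group_top Φ
      (fun r => (r.1.1 * r.2.1, r.1.2.1 * r.2.2.1, w ((r.2.1)⁻¹, r.1.2.1) * r.1.2.2 * r.2.2.2))
      (fun r => (r.1⁻¹, r.2.1⁻¹, (w (r.1, r.2.1) * r.2.2)⁻¹)) ?_ ?_ ?_ ?_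
    · fun_prop
    · fun_prop
    · intro g h
      simp only [Φ, map_mul, hmul]
    · intro g
      simp only [Φ, map_inv, hinv]
  have hinj : Function.Injective Φ := by
    intro g h hgh
    simp only [Φ, Prod.mk.injEq] at hgh
    rw [← hdec g, ← hdec h, hgh.1, hgh.2.1, hgh.2.2]
  have hσ : TopologicalSpace.induced Φ inferInstance = τ := by
    refine hG.min _ hgrp ?_ ?_
    · exact @T2Space.of_injective_continuous G _ (TopologicalSpace.induced Φ inferInstance) _ _
        Φ hinj continuous_induced_dom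
    · exact continuous_iff_le_induced.1 hΦ
  have key : ∀ {Y : Type u} [TopologicalSpace Y] (f : Y → G), Continuous (Φ ∘ f) →
      Continuous f := by
    intro Y _ f hf
    rw [← hσ]
    exact continuous_induced_rng.2 hf
  constructor
  · apply key
    have : Φ ∘ s = fun e => (e, 1, 1) := by
      funext e
      simp [Φ, α, has, hbs]
    rw [this]
    fun_prop
  · apply key
    have : Φ ∘ t = fun f => (1, f, 1) := by
      funext f
      simp [Φ, α, hat, hbt]
    rw [this]
    fun_prop

/-- Minimal groups of Heisenberg type are conjugation rigid. -/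
theorem conjRigid_of_heisenberg {G : Type u} [Group G] [τ : TopologicalSpace G]
    [IsTopologicalGroup G] [T2Space G] (hG : IsMinimalGroup G τ) (h : HeisenbergType G) :
    ConjRigid G := by
  obtain ⟨E, F, gE, gF, τE, τF, hE, hF, hE2, hF2, a, b, s, t, ha, hb, hs, ht, has, hbs, hat, hbt,
    hK, hZ, hsep1, hsep2⟩ := h
  have hsa : @Continuous G G τ τ (fun g => s (a g)) := hs.comp ha
  have htb : @Continuous G G τ τ (fun g => t (b g)) := ht.comp hb
  have hmin : ∀ (σE : TopologicalSpace E) (σF : TopologicalSpace F),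
      @IsTopologicalGroup E σE _ → @IsTopologicalGroup F σF _ → @T2Space E σE → @T2Space F σF →
      τE ≤ σE → τF ≤ σF →
      @Continuous (E × F) G (@instTopologicalSpaceProd E F σE σF) τ
        (fun q : E × F => s q.1 * t q.2 * (s q.1)⁻¹ * (t q.2)⁻¹) → σE = τE ∧ σF = τF := by
    intro σE σF h1 h2 h3 h4 h5 h6 h7
    have h := @heis_sections G _ τ _ _ hG E F gE gF σE σF h1 h2 h3 h4 a b s t
      (continuous_le_rng h5 ha) (continuous_le_rng h6 hb) hsa htb
      has hbs hat hbt hZ h7
    constructor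
    · refine le_antisymm ?_ h5
      have h8 : @Continuous E E σE τE (fun e => a (s e)) :=
        @Continuous.comp E G E σE τ τE _ _ ha h.1
      have h9 : (fun e => a (s e)) = id := funext has
      rw [h9] at h8
      exact continuous_id_iff_le.1 h8
    · refine le_antisymm ?_ h6
      have h8 : @Continuous F F σF τF (fun f => b (t f)) :=
        @Continuous.comp F G F σF τ τF _ _ hb h.2
      have h9 : (fun f => b (t f)) = id := funext hbt
      rw [h9] at h8
      exact continuous_id_iff_le.1 h8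
  have hinv : @Continuous G G τ τ (fun x => x⁻¹) := continuous_inv
  have hlim : ∀ U : Ultrafilter G, Tendsto a U (𝓝 1) → Tendsto b U (𝓝 1) →
      ∃ z : G, (U : Filter G) ≤ @nhds G τ z := by
    intro U hta hUb
    let α : G → G := fun u => (s (a u) * t (b u))⁻¹ * u
    have hα : ∀ u, α u ∈ {g : G | a g = 1 ∧ b g = 1} := by
      intro u
      refine ⟨?_, ?_⟩
      · simp [α, has, hat]
      · simp [α, hbs, hbt]
    have hUα : ((U.map α : Ultrafilter G) : Filter G) ≤ 𝓟 {g : G | a g = 1 ∧ b g = 1} := by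
      rw [le_principal_iff]
      change α ⁻¹' {g : G | a g = 1 ∧ b g = 1} ∈ (U : Filter G)
      exact Filter.univ_mem' hα
    obtain ⟨z, -, hz⟩ := hK.ultrafilter_le_nhds _ hUα
    refine ⟨z, ?_⟩
    have k1 : Tendsto (fun u => s (a u)) U (𝓝 1) := by
      have := (hs.tendsto 1).comp hta
      rwa [map_one] at this
    have k2 : Tendsto (fun u => t (b u)) U (𝓝 1) := by
      have := (ht.tendsto 1).comp hUb
      rwa [map_one] at this
    have k3 : Tendsto α U (𝓝 z) := hz
    have k4 : Tendsto (fun u => s (a u) * t (b u) * α u) U (𝓝 (1 * 1 * z)) := (k1.mul k2).mul k3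
    have k5 : (fun u => s (a u) * t (b u) * α u) = id := by
      funext u
      simp only [α, id]
      group
    rw [k5, one_mul, one_mul] at k4
    exact k4
  intro ν hν hle hcl hconj U hU
  have hcomm1 : ∀ (g : G) (f : F), g * t f * g⁻¹ = s (a g) * t f * (s (a g))⁻¹ := by
    intro g f
    have hz : (s (a g) * t (b g))⁻¹ * g ∈ Subgroup.center G := by
      apply hZ
      · simp [has, hat]
      · simp [hbs, hbt]
    have h1 := (Subgroup.mem_center_iff.1 hz) (t f)
    have h2 : t (b g) * t f = t f * t (b g) := by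
      rw [← map_mul, ← map_mul, mul_comm]
    have h3 : g = s (a g) * t (b g) * ((s (a g) * t (b g))⁻¹ * g) := by group
    set z := (s (a g) * t (b g))⁻¹ * g with hzdef
    calc g * t f * g⁻¹ = s (a g) * t (b g) * (z * t f) * z⁻¹ * (t (b g))⁻¹ * (s (a g))⁻¹ := by
          conv_lhs => rw [h3]
          group
      _ = s (a g) * (t (b g) * t f) * (t (b g))⁻¹ * (s (a g))⁻¹ := by
          rw [← h1]; group
      _ = s (a g) * t f * (s (a g))⁻¹ := by
          rw [h2]; group
  have hcomm2 : ∀ (g : G) (e : E), g * s e * g⁻¹ = t (b g) * s e * (t (b g))⁻¹ := by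
    intro g e
    have hz : (t (b g) * s (a g))⁻¹ * g ∈ Subgroup.center G := by
      apply hZ
      · simp [has, hat]
      · simp [hbs, hbt]
    have h1 := (Subgroup.mem_center_iff.1 hz) (s e)
    have h2 : s (a g) * s e = s e * s (a g) := by
      rw [← map_mul, ← map_mul, mul_comm]
    have h3 : g = t (b g) * s (a g) * ((t (b g) * s (a g))⁻¹ * g) := by group
    set z := (t (b g) * s (a g))⁻¹ * g with hzdef
    calc g * s e * g⁻¹ = t (b g) * s (a g) * (z * s e) * z⁻¹ * (s (a g))⁻¹ * (t (b g))⁻¹ := by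
          conv_lhs => rw [h3]
          group
      _ = t (b g) * (s (a g) * s e) * (s (a g))⁻¹ * (t (b g))⁻¹ := by
          rw [← h1]; group
      _ = t (b g) * s e * (t (b g))⁻¹ := by
          rw [h2]; group
  have hk : @Continuous G G τ ν (MonoidHom.id G) := continuous_id_iff_le.2 hle
  have hta : Tendsto a (@nhds G ν 1) (𝓝 1) := by
    refine @heis_half G _ τ _ _ G _ ν hν (MonoidHom.id G) (MonoidHom.id G) hk (fun g => rfl) hconj
      E F gE gF τE τF hE hF hE2 hF2 a s t hs ht has hcomm1 hsep1 ?_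
    intro σE h1 h2 h3 h4
    exact (hmin σE τF h1 hF h2 hF2 h3 le_rfl h4).1
  have htb : Tendsto b (@nhds G ν 1) (𝓝 1) := by
    refine @heis_half G _ τ _ _ G _ ν hν (MonoidHom.id G) (MonoidHom.id G) hk (fun g => rfl) hconj
      F E gF gE τF τE hF hE hF2 hE2 b t s ht hs hbt hcomm2 ?_ ?_
    · intro f h
      exact hsep2 f (fun e => (h e).symm)
    intro σF h1 h2 h3 h4
    refine (hmin τE σF hE h1 hE2 h2 le_rfl h3 ?_).2
    have h5 : @Continuous (E × F) (F × E) (@instTopologicalSpaceProd E F τE σF)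
        (@instTopologicalSpaceProd F E σF τE) Prod.swap := @continuous_swap E F τE σF
    have h6 := @Continuous.comp (E × F) (F × E) G (@instTopologicalSpaceProd E F τE σF)
      (@instTopologicalSpaceProd F E σF τE) τ _ _ h4 h5
    have h7 := @Continuous.comp (E × F) G G (@instTopologicalSpaceProd E F τE σF) τ τ _ _
      hinv h6
    have h8 : (fun q : E × F => s q.1 * t q.2 * (s q.1)⁻¹ * (t q.2)⁻¹)
        = (fun x : G => x⁻¹) ∘ ((fun q : F × E => t q.1 * s q.2 * (t q.1)⁻¹ * (s q.2)⁻¹)
          ∘ Prod.swap) := by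
      funext q
      simp only [Function.comp_apply, Prod.fst_swap, Prod.snd_swap]
      group
    rw [h8]
    exact h7
  exact hlim U (hta.mono_left hU) (htb.mono_left hU)

/-- **Main theorem.** Let `G i` (`i ∈ I`, any index set) be Raikov complete minimal topological
groups, all but finitely many of which are conjugation rigid, have detected centre or are
generalised Heisenberg groups.  Then the product group with the product topology is minimal. -/
theorem result {I : Type w} (G : I → Type u) [∀ i, Group (G i)] [∀ i, TopologicalSpace (G i)]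
    [∀ i, IsTopologicalGroup (G i)] [∀ i, T2Space (G i)]
    (hcomp : ∀ i, RaikovComplete (G i)) (hmin : ∀ i, IsMinimalGroup (G i) inferInstance)
    (hfin : {i | ¬ (ConjRigid (G i) ∨ CentreDetected (G i) ∨ HeisenbergType (G i))}.Finite) :
    IsMinimalGroup (∀ i, G i) Pi.topologicalSpace := by
  refine main_ind hfin.toFinset.card G hfin.toFinset rfl hcomp hmin ?_
  intro i hi
  have h : ConjRigid (G i) ∨ CentreDetected (G i) ∨ HeisenbergType (G i) := by
    by_contra hcon
    exact hi (by rw [Set.Finite.mem_toFinset]; exact hcon)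
  rcases h with h | h | h
  · exact h
  · exact conjRigid_of_centreDetected (hcomp i) h
  · exact conjRigid_of_heisenberg (hmin i) h

end Pool.Agent.Results.MP_c4a55f_al.CentreDetected
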