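import Pool.Agent.H430.UspProd
import Pool.Agent.H430.UspLC

set_option linter.all false

namespace Pool.Agent.Results.MP_c4a55f_al.LocCompactProduct

open Filter Topology Set Usp

theorem AC_mono {N : Type*} [Group N] [TopologicalSpace N] {𝓤 𝓖 : Filter N} (h : 𝓤 ≤ 𝓖)
    (hG : AC 𝓖) : AC 𝓤 := fun c =>
  ⟨(hG c).1.mono_left (Filter.prod_mono h le_rfl), (hG c).2.mono_left (Filter.prod_mono h le_rfl)⟩

/-- The centre of a minimal second countable locally compact group is compact. -/
theorem isCompact_center_lc {N : Type*} [Group N] (t : TopologicalSpace N)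
    (hmin : IsMinimal N t) [LocallyCompactSpace N] [SecondCountableTopology N] :
    IsCompact (Subgroup.center N : Set N) := by
  haveI := hmin.1
  haveI := hmin.2.1
  have hclosed : IsClosed (Subgroup.center N : Set N) := by
    have : (Subgroup.center N : Set N) = ⋂ g : N, {x | g * x = x * g} := by
      ext x
      simp [Subgroup.mem_center_iff]
    rw [this]
    exact isClosed_iInter fun g => isClosed_eq (by fun_prop) (by fun_prop)
  by_contra hcon
  haveI hne : (cocompact N ⊓ 𝓟 (Subgroup.center N : Set N)).NeBot := by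
    rw [Filter.neBot_iff]
    intro hbot
    rw [inf_principal_eq_bot, mem_cocompact] at hbot
    obtain ⟨K, hK, hKs⟩ := hbot
    apply hcon
    exact hK.of_isClosed_subset hclosed (compl_subset_compl.1 hKs)
  let 𝓤 : Ultrafilter N := Ultrafilter.of (cocompact N ⊓ 𝓟 (Subgroup.center N : Set N))
  have hle : (𝓤 : Filter N) ≤ cocompact N ⊓ 𝓟 (Subgroup.center N : Set N) := Ultrafilter.of_le _
  have hcen : ∀ᶠ x in (𝓤 : Filter N), x ∈ Subgroup.center N :=
    hle (mem_inf_of_right (mem_principal_self _))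
  have hAC : AC (𝓤 : Filter N) := by
    intro c
    have h1 : ∀ᶠ p : N × N in (𝓤 : Filter N) ×ˢ 𝓝 c, p.1 ∈ Subgroup.center N :=
      tendsto_fst.eventually hcen
    constructor
    · refine (tendsto_snd (f := (𝓤 : Filter N)) (g := 𝓝 c)).congr' ?_
      filter_upwards [h1] with p hp
      rw [← Subgroup.mem_center_iff.1 hp p.2]; group
    · refine (tendsto_snd (f := (𝓤 : Filter N)) (g := 𝓝 c)).congr' ?_
      filter_upwards [h1] with p hp
      rw [mul_assoc, Subgroup.mem_center_iff.1 hp p.2]; group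
  obtain ⟨s, hs1, hs2, hs3, hs4⟩ := exists_coarser_lc t 𝓤 hAC (fun C hC =>
    hle (mem_inf_of_left hC.compl_mem_cocompact))
  exact hs4 (hmin.2.2 s hs1 hs2 hs3)

theorem quot_lc {P N : Type*} [Group P] [Group N] [TopologicalSpace P] [IsTopologicalGroup P]
    [T2Space P] (t : TopologicalSpace N) (hmin : IsMinimal N t) [LocallyCompactSpace N]
    [SecondCountableTopology N] (i : N →* P)
    (hi : Function.Injective i) (hc : Continuous i) (π : P →* N)
    (hconj : ∀ x g, i (π x * g * (π x)⁻¹) = x * i g * x⁻¹)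
    (O : Set N) (hO : O ∈ 𝓝 (1 : N)) :
    ∀ᶠ x in 𝓝 (1 : P), ∃ z ∈ Subgroup.center N, ∃ v ∈ O, π x = z * v := by
  haveI := hmin.1
  haveI := hmin.2.1
  have hcc := continuous_conj t hmin i hi hc π hconj
  by_contra hcon
  set ZO : Set N := {x | ∃ z ∈ Subgroup.center N, ∃ v ∈ interior O, x = z * v} with hZO
  have hZOopen : IsOpen ZO := by
    have : ZO = ⋃ z ∈ (Subgroup.center N : Set N), (fun v => z⁻¹ * v) ⁻¹' (interior O) := by
      ext x
      simp only [hZO, mem_setOf_eq, mem_iUnion, mem_preimage, SetLike.mem_coe, exists_prop]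
      constructor
      · rintro ⟨z, hz, v, hv, rfl⟩
        exact ⟨z, hz, by simpa using hv⟩
      · rintro ⟨z, hz, hv⟩
        exact ⟨z, hz, z⁻¹ * x, hv, by simp⟩
    rw [this]
    exact isOpen_biUnion fun z _ => isOpen_interior.preimage (by fun_prop)
  have hACmap : AC (Filter.map π (𝓝 (1 : P))) := by
    intro c
    have hmap : (Filter.map π (𝓝 (1 : P))) ×ˢ 𝓝 c = Filter.map (Prod.map π id) (𝓝 (1 : P) ×ˢ 𝓝 c) := by
      rw [← Filter.prod_map_map_eq', Filter.map_id]
    rw [hmap]
    constructor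
    · rw [tendsto_map'_iff]
      have := hcc.tendsto ((1 : P), c)
      rw [nhds_prod_eq] at this
      simpa [Function.comp_def] using this
    · rw [tendsto_map'_iff]
      have h1 : Continuous (fun p : P × N => (p.1⁻¹, p.2)) := by fun_prop
      have := (hcc.comp h1).tendsto ((1 : P), c)
      rw [nhds_prod_eq] at this
      simpa [Function.comp_def] using this
  let 𝓕 : Filter N := Filter.map π (𝓝 (1 : P)) ⊓ 𝓟 ZOᶜ
  haveI hF : 𝓕.NeBot := by
    rw [Filter.neBot_iff]
    intro hbot
    apply hcon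
    have := inf_principal_eq_bot.1 hbot
    rw [compl_compl, mem_map] at this
    filter_upwards [this] with x hx
    obtain ⟨z, hz, v, hv, hx⟩ := hx
    exact ⟨z, hz, v, interior_subset hv, hx⟩
  haveI hG : (𝓕 ⊓ cocompact N).NeBot := by
    by_contra hnot
    have hdis : Disjoint 𝓕 (cocompact N) := by
      rw [disjoint_iff]
      by_contra h
      exact hnot ⟨h⟩
    obtain ⟨K, hKF, hK⟩ := disjoint_cocompact_right 𝓕 |>.1 hdis
    obtain ⟨c, -, hcl⟩ := hK (le_principal_iff.2 hKF)
    have hcO : c ∈ ZOᶜ := by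
      rw [← hZOopen.isClosed_compl.closure_eq]
      exact mem_closure_iff_clusterPt.2 (hcl.mono inf_le_right)
    apply hcO
    refine ⟨c, ?_, 1, mem_interior_iff_mem_nhds.2 hO, (mul_one c).symm⟩
    rw [Subgroup.mem_center_iff]
    intro g
    haveI : (𝓝 c ⊓ 𝓕).NeBot := hcl
    have h1 : Tendsto (fun x : N => x * g * x⁻¹) (𝓝 c ⊓ 𝓕) (𝓝 (c * g * c⁻¹)) := by
      have : ContinuousAt (fun x : N => x * g * x⁻¹) c := by fun_prop
      exact this.tendsto.mono_left inf_le_left
    have h2 : Tendsto (fun x : N => x * g * x⁻¹) (𝓝 c ⊓ 𝓕) (𝓝 g) := by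
      have h3 : Tendsto (fun x : N => (x, g)) (𝓝 c ⊓ 𝓕) (Filter.map π (𝓝 (1 : P)) ×ˢ 𝓝 g) :=
        (tendsto_id.mono_left (inf_le_right.trans inf_le_left)).prodMk tendsto_const_nhds
      exact (hACmap g).1.comp h3
    have h4 := tendsto_nhds_unique h1 h2
    rw [mul_inv_eq_iff_eq_mul] at h4
    exact h4.symm
  let 𝓤 : Ultrafilter N := Ultrafilter.of (𝓕 ⊓ cocompact N)
  have hle : (𝓤 : Filter N) ≤ 𝓕 ⊓ cocompact N := Ultrafilter.of_le _
  obtain ⟨s, hs1, hs2, hs3, hs4⟩ := exists_coarser_lc t 𝓤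
    (AC_mono (hle.trans (inf_le_left.trans inf_le_left)) hACmap) (fun C hC =>
    hle (mem_inf_of_right hC.compl_mem_cocompact))
  exact hs4 (hmin.2.2 s hs1 hs2 hs3)

universe u v

theorem result {ι : Type u} (G : ι → Type v) [∀ i, Group (G i)] [t : ∀ i, TopologicalSpace (G i)]
    (hmin : ∀ i, IsMinimal (G i) (t i))
    (hcase : ∀ i, (LocallyCompactSpace (G i) ∧ SecondCountableTopology (G i)) ∨
      (IsCompact (Subgroup.center (G i) : Set (G i)) ∧
        IsMinimal (G i ⧸ Subgroup.center (G i)) (QuotientGroup.instTopologicalSpace _))) :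
    IsMinimal (∀ i, G i) Pi.topologicalSpace := by
  classical
  haveI : ∀ i, IsTopologicalGroup (G i) := fun i => (hmin i).1
  haveI : ∀ i, T2Space (G i) := fun i => (hmin i).2.1
  refine ⟨inferInstance, inferInstance, ?_⟩
  intro σ hσ hσg hσt
  have he : @Continuous _ _ Pi.topologicalSpace σ (MulEquiv.refl (∀ i, G i)) :=
    continuous_id_iff_le.2 hσ
  have hZ : ∀ i, IsCompact (Subgroup.center (G i) : Set (G i)) := by
    intro i
    rcases hcase i with ⟨h1, h2⟩ | h
    · exact isCompact_center_lc (t i) (hmin i)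
    · exact h.1
  have hQ : ∀ i, ∀ O ∈ 𝓝 (1 : G i), ∀ᶠ x in @nhds (∀ i, G i) σ (1 : ∀ i, G i),
      ∃ z ∈ Subgroup.center (G i), ∃ v ∈ O, (MulEquiv.refl (∀ i, G i)).symm x i = z * v := by
    intro i O hO
    have hc : @Continuous (G i) (∀ i, G i) (t i) σ (MonoidHom.mulSingle G i) := by
      have h1 : @Continuous (G i) (∀ i, G i) (t i) Pi.topologicalSpace (MonoidHom.mulSingle G i) :=
        continuous_mulSingle i
      exact @Continuous.comp (G i) (∀ i, G i) (∀ i, G i) (t i) Pi.topologicalSpace σ _ _ he h1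
    have hinj : Function.Injective (MonoidHom.mulSingle G i) := Pi.mulSingle_injective i
    have hconj : ∀ (x : ∀ i, G i) (g : G i), MonoidHom.mulSingle G i
        (Pi.evalMonoidHom G i x * g * (Pi.evalMonoidHom G i x)⁻¹) =
        x * MonoidHom.mulSingle G i g * x⁻¹ := by
      intro x g
      funext j
      by_cases h : j = i
      · subst h
        simp
      · simp [h]
    rcases hcase i with ⟨h1, h2⟩ | h
    · exact @quot_lc (∀ i, G i) (G i) _ _ σ hσg hσt (t i) (hmin i) h1 h2 (MonoidHom.mulSingle G i)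
        hinj hc (Pi.evalMonoidHom G i) hconj O hO
    · exact @quot_min (∀ i, G i) (G i) _ _ σ hσg hσt (t i) (hmin i) (MonoidHom.mulSingle G i)
        hinj hc (Pi.evalMonoidHom G i) (fun g => by simp) hconj h.2 O hO
  have hfin := @merson ι G _ _ _ _ (∀ i, G i) _ σ hσg hσt (MulEquiv.refl _) he hZ hQ
  exact le_antisymm (continuous_id_iff_le.1 hfin) hσ

end Pool.Agent.Results.MP_c4a55f_al.LocCompactProduct
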